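import Pool.Agent.H.MP_7c0f46_gt.A

set_option autoImplicit false

namespace Pool.Agent.Results.MP_7c0f46_gt.SierpinskiNo

open Pool.Agent.H.MP_7c0f46_gt Cardinal

theorem result : (∃ S : Set ℝ, Sierpinski S) → ℵ₁ < bnum →
    ∃ A : Set ℝ, #A < bnum ∧ ¬ ProdHurewicz A ∧ ¬ ProdMenger A := by
  rintro ⟨S, hS⟩ hb
  obtain ⟨A, B, h1, h2, h3, h4⟩ := split hS
  have hA : ¬ A.Countable := fun h => (h1 ▸ (countable_iff_lt_aleph_one _).1 h).false
  obtain ⟨a, ha⟩ : A.Nonempty := Set.nonempty_iff_ne_empty.2 fun e => hA (e ▸ Set.countable_empty)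
  haveI : Nonempty (M A B) := ⟨⟨a, Or.inl ha⟩⟩
  have hc : #(M A B) < bnum := by
    refine lt_of_le_of_lt ?_ hb
    have : #(M A B) ≤ #↥(A ∪ B) := mk_le_of_injective (f := fun y => ⟨y.v, y.h⟩)
      fun y z e => M.inj (congrArg Subtype.val e)
    exact this.trans ((mk_union_le _ _).trans (add_le_of_le (aleph0_le_aleph 1) h1.le h2))
  have hH := hur hc (M.lind h4)
  exact ⟨A, h1 ▸ hb, fun h => M.notM hA h3 (h _ hH).menger, fun h => M.notM hA h3 (h _ hH.menger)⟩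

end Pool.Agent.Results.MP_7c0f46_gt.SierpinskiNo
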